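import Pool.Agent.V1134.Aff
import Pool.Agent.V1134.SmallSolvable

namespace Pool.Agent.Results.MP_e15593_al.NoMinimal

open Pool.Agent.V1134

/-- The order sequence of a finite group: the sorted list of the orders of all its elements. -/
noncomputable def os (G : Type) [Group G] [Fintype G] : List ℕ :=
  ((Finset.univ : Finset G).val.map (fun g => orderOf g)).sort (· ≤ ·)

/-- The sequence `a` dominates the sequence `b` (of the same length) if every entry of `a` is at
least the corresponding entry of `b`. -/
def Dominates (a b : List ℕ) : Prop := List.Forall₂ (fun x y => y ≤ x) a b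

/-- The group `G` has minimal order sequence. -/
def MinimalOS (G : Type) [Group G] [Fintype G] : Prop :=
  ∀ (H : Type) [Group H] [Fintype H], Nat.card H = Nat.card G →
    Dominates (os G) (os H) → os H = os G

theorem dominates_of_count (a : List ℕ) : ∀ (b : List ℕ), a.Pairwise (· ≤ ·) → b.Pairwise (· ≤ ·) →
    a.length = b.length →
    (∀ t, a.countP (fun x => decide (x ≤ t)) ≤ b.countP (fun x => decide (x ≤ t))) →
    Dominates a b := by
  induction a with
  | nil =>
    intro b _ _ hl _
    have : b = [] := List.eq_nil_of_length_eq_zero (by simpa using hl.symm)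
    rw [this]
    exact List.Forall₂.nil
  | cons x a ih =>
    intro b ha hb hl h
    cases b with
    | nil => simp at hl
    | cons y b =>
      rw [List.pairwise_cons] at ha hb
      have hyx : y ≤ x := by
        have h1 := h x
        have h2 : 0 < (x :: a).countP (fun z => decide (z ≤ x)) := by
          rw [List.countP_pos_iff]
          exact ⟨x, by simp, by simp⟩
        have h3 : 0 < (y :: b).countP (fun z => decide (z ≤ x)) := lt_of_lt_of_le h2 h1
        rw [List.countP_pos_iff] at h3
        obtain ⟨z, hz, hzx⟩ := h3
        simp only [decide_eq_true_eq] at hzx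
        rcases List.mem_cons.1 hz with rfl | hz
        · exact hzx
        · exact le_trans (hb.1 z hz) hzx
      refine List.Forall₂.cons hyx (ih b ha.2 hb.2 (by simpa using hl) ?_)
      intro t
      by_cases hxt : x ≤ t
      · have h1 := h t
        rw [List.countP_cons_of_pos (by simpa using hxt),
          List.countP_cons_of_pos (by simpa using le_trans hyx hxt)] at h1
        omega
      · have : a.countP (fun z => decide (z ≤ t)) = 0 := by
          rw [List.countP_eq_zero]
          intro z hz
          have := ha.1 z hz
          simp only [decide_eq_true_eq]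
          omega
        rw [this]
        exact Nat.zero_le _

theorem countP_os (G : Type) [Group G] [Fintype G] (t : ℕ) :
    (os G).countP (fun x => decide (x ≤ t)) =
      (Finset.univ.filter (fun g : G => orderOf g ≤ t)).card := by
  unfold os
  rw [← Multiset.coe_countP, Multiset.sort_eq, Multiset.countP_map]
  rfl

theorem length_os (G : Type) [Group G] [Fintype G] : (os G).length = Fintype.card G := by
  unfold os
  rw [Multiset.length_sort, Multiset.card_map]
  rfl

theorem dominates_iff (G H : Type) [Group G] [Fintype G] [Group H] [Fintype H]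
    (hc : Fintype.card G = Fintype.card H)
    (h : ∀ t, (Finset.univ.filter (fun g : G => orderOf g ≤ t)).card ≤
      (Finset.univ.filter (fun g : H => orderOf g ≤ t)).card) : Dominates (os G) (os H) := by
  refine dominates_of_count _ _ (Multiset.pairwise_sort _ _) (Multiset.pairwise_sort _ _) ?_ ?_
  · rw [length_os, length_os, hc]
  · intro t
    rw [countP_os, countP_os]
    exact h t

instance fact61 : Fact (Nat.Prime 61) := ⟨by norm_num⟩

/-- A non-solvable group of order `60 * 61` has at most `60` elements of order dividing `60`. -/
theorem card_le_sixty (G : Type) [Group G] [Finite G] (hG : Nat.card G = 3660)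
    (hns : ¬ Group.IsSolvable G) : Nat.card {g : G // g ^ 60 = 1} ≤ 60 := by
  obtain ⟨P⟩ := (inferInstance : Nonempty (Sylow 61 G))
  have hP : Nat.card P = 61 := by
    rw [P.card_eq_multiplicity, hG]
    have h2 : (3660 : ℕ).factorization 61 = 1 := by
      rw [show (3660 : ℕ) = 60 * 61 by norm_num, Nat.factorization_mul (by norm_num) (by norm_num)]
      have h3 : (60 : ℕ).factorization 61 = 0 :=
        Nat.factorization_eq_zero_of_not_dvd (by norm_num)
      rw [Finsupp.add_apply, h3, Nat.Prime.factorization (by norm_num : Nat.Prime 61)]
      simp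
    rw [h2, pow_one]
  have hidx : (P : Subgroup G).index = 60 := by
    have h1 := Subgroup.card_mul_index (P : Subgroup G)
    rw [hG] at h1
    have h2 : Nat.card (P : Subgroup G) = 61 := hP
    rw [h2] at h1
    omega
  have h1 : Nat.card (Sylow 61 G) = 1 := by
    have h2 := Sylow.card_dvd_index P
    rw [hidx] at h2
    have h3 := card_sylow_modEq_one 61 G
    have h4 : Nat.card (Sylow 61 G) ≤ 60 := Nat.le_of_dvd (by norm_num) h2
    have h5 : Nat.card (Sylow 61 G) % 61 = 1 % 61 := h3
    omega
  have h2 : Subsingleton (Sylow 61 G) := (Nat.card_eq_one_iff_unique.1 h1).1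
  have hN : (P : Subgroup G).Normal := Sylow.normal_of_subsingleton P
  set N : Subgroup G := (P : Subgroup G) with hNdef
  have hcN : Nat.card N = 61 := hP
  have hcyc : IsCyclic N := isCyclic_of_prime_card hcN
  -- the centralizer
  let f : G →* (ZMod (Nat.card N))ˣ :=
    (IsCyclic.mulAutMulEquiv N).toMonoidHom.comp MulAut.conjNormal
  have hNf : N ≤ f.ker := by
    intro x hx
    rw [MonoidHom.mem_ker]
    show (IsCyclic.mulAutMulEquiv N) (MulAut.conjNormal x) = 1
    have : MulAut.conjNormal (H := N) x = 1 := by
      ext y
      rw [MulAut.conjNormal_apply]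
      have hcomm := (IsCyclic.commGroup (α := N)).mul_comm ⟨x, hx⟩ y
      have h3 : x * y = y * x := congrArg Subtype.val hcomm
      rw [h3]
      simp
    rw [this, map_one]
  have hker : f.ker = ⊤ := by
    by_contra hne
    apply hns
    -- the kernel is solvable
    have hcomm : Group.IsSolvable (ZMod (Nat.card N))ˣ := Group.isSolvable_of_comm mul_comm
    have hsolv : Group.IsSolvable f.ker := by
      have hN' : (N.subgroupOf f.ker).Normal := inferInstance
      refine SmallSolvable.solvable_of_normal (N.subgroupOf f.ker) ?_ ?_
      · apply Group.isSolvable_of_comm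
        intro x y
        apply Subtype.ext
        apply Subtype.ext
        have hcomm := (IsCyclic.commGroup (α := N)).mul_comm ⟨(x.1.1 : G), x.2⟩ ⟨(y.1.1 : G), y.2⟩
        have hcomm' : (x.1.1 : G) * y.1.1 = y.1.1 * x.1.1 := congrArg Subtype.val hcomm
        exact hcomm'
      · have hrel : (N.subgroupOf f.ker).index * f.ker.index = 60 := by
          rw [← hidx]
          exact Subgroup.relIndex_mul_index hNf
        apply SmallSolvable.solvable_of_dvd_sixty
        · exact Dvd.intro _ hrel
        · intro h60
          have h60' : (N.subgroupOf f.ker).index = 60 := h60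
          rw [h60'] at hrel
          have h3 : f.ker.index = 1 := by omega
          exact hne (Subgroup.index_eq_one.1 h3)
    exact Group.isSolvable_of_ker_le_range f.ker.subtype f (by rw [Subgroup.range_subtype])
  -- so N is central
  have hcentral : ∀ (g : G) (x : G), x ∈ N → g * x = x * g := by
    intro g x hx
    have hg : g ∈ f.ker := by rw [hker]; trivial
    rw [MonoidHom.mem_ker] at hg
    have h3 : MulAut.conjNormal (H := N) g = 1 := by
      apply (IsCyclic.mulAutMulEquiv N).injective
      rw [map_one]
      exact hg
    have h4 := congrArg (fun φ : MulAut N => ((φ ⟨x, hx⟩ : N) : G)) h3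
    simp only [MulAut.conjNormal_apply, MulAut.one_apply] at h4
    calc g * x = (g * x * g⁻¹) * g := by group
      _ = x * g := by rw [h4]
  -- injectivity of the projection
  have hinj : Function.Injective (fun g : {g : G // g ^ 60 = 1} => (g.1 : G ⧸ N)) := by
    intro g h hgh
    have h3 : g.1⁻¹ * h.1 ∈ N := QuotientGroup.eq.1 hgh
    set z := g.1⁻¹ * h.1 with hz
    have h4 : h.1 = g.1 * z := by rw [hz]; group
    have hc : Commute g.1 z := hcentral g.1 z h3
    have h5 : z ^ 60 = 1 := by
      have h6 := h.2
      rw [h4, hc.mul_pow, g.2, one_mul] at h6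
      exact h6
    have h7 : z ^ 61 = 1 := by
      have h8 : (⟨z, h3⟩ : N) ^ Nat.card N = 1 := pow_card_eq_one'
      rw [hcN] at h8
      exact congrArg Subtype.val h8
    have h9 : z = 1 := by
      rw [pow_succ, h5, one_mul] at h7
      exact h7
    apply Subtype.ext
    rw [h4, h9, mul_one]
  have h3 := Nat.card_le_card_of_injective _ hinj
  have h4 : Nat.card (G ⧸ N) = 60 := hidx
  omega

theorem card_aff61 : Nat.card (Aff 61) = 3660 := Aff.card_aff

theorem orderOf_le_aff (x : Aff 61) : orderOf x ≤ 61 := by
  by_cases hx : x.u = 1
  · apply Nat.le_of_dvd (by norm_num)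
    apply orderOf_dvd_of_pow_eq_one
    obtain ⟨h1, h2⟩ := Aff.pow_transl x hx 61
    ext
    · rw [h1]; rfl
    · rw [h2]
      have : ((61 : ℕ) : ZMod 61) = 0 := by decide
      rw [this, zero_mul]
      rfl
  · have h1 : x ^ 60 = 1 := by
      apply Aff.pow_eq_one_of_ne x hx
      have h2 : x.u ^ Fintype.card (ZMod 61)ˣ = 1 := pow_card_eq_one
      rwa [ZMod.card_units_eq_totient, Nat.totient_prime fact61.out] at h2
    have h2 : orderOf x ≤ 60 := Nat.le_of_dvd (by norm_num) (orderOf_dvd_of_pow_eq_one h1)
    omega

theorem card_involutions (t : ℕ) (ht : 2 ≤ t) :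
    61 ≤ (Finset.univ.filter (fun g : Aff 61 => orderOf g ≤ t)).card := by
  have h1 : (Finset.univ.image (fun s : ZMod 61 => (⟨-1, s⟩ : Aff 61))) ⊆
      Finset.univ.filter (fun g : Aff 61 => orderOf g ≤ t) := by
    intro x hx
    rw [Finset.mem_image] at hx
    obtain ⟨s, -, rfl⟩ := hx
    rw [Finset.mem_filter]
    refine ⟨Finset.mem_univ _, le_trans ?_ ht⟩
    apply Nat.le_of_dvd (by norm_num)
    apply orderOf_dvd_of_pow_eq_one
    rw [pow_two]
    ext
    · rw [Aff.mul_u]
      show ((-1 * -1 : (ZMod 61)ˣ) : ZMod 61) = 1
      rw [neg_mul_neg, one_mul, Units.val_one]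
    · rw [Aff.mul_t]
      show ((-1 : (ZMod 61)ˣ) : ZMod 61) * s + s = 0
      rw [Units.val_neg, Units.val_one]
      ring
  have h2 := Finset.card_le_card h1
  rw [Finset.card_image_of_injective _ (fun a b h => congrArg Aff.t h), Finset.card_univ,
    ZMod.card] at h2
  exact h2

theorem not_solvable_alt : ¬ Group.IsSolvable (alternatingGroup (Fin 5)) := by
  intro h
  apply Equiv.Perm.not_isSolvable_fin_5
  have h2 : Group.IsSolvable ℤˣ := Group.isSolvable_of_comm mul_comm
  refine Group.isSolvable_of_ker_le_range (alternatingGroup (Fin 5)).subtype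
    (Equiv.Perm.sign (α := Fin 5)) ?_
  rw [Subgroup.range_subtype]
  exact le_of_eq rfl

theorem no_minimal (G : Type) [Group G] [Fintype G] (hG : Nat.card G = 3660)
    (hns : ¬ Group.IsSolvable G) : ¬ MinimalOS G := by
  classical
  intro hmin
  have h60 := card_le_sixty G hG hns
  rw [Nat.card_eq_fintype_card, Fintype.card_subtype] at h60
  have hle60 : ∀ t ≤ 60, (Finset.univ.filter (fun g : G => orderOf g ≤ t)).card ≤ 60 := by
    intro t ht
    refine le_trans (Finset.card_le_card ?_) h60
    intro g hg
    rw [Finset.mem_filter] at hg ⊢
    refine ⟨Finset.mem_univ _, ?_⟩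
    rw [← orderOf_dvd_iff_pow_eq_one]
    have h1 : orderOf g ∣ 60 * 61 := by
      have := orderOf_dvd_natCard g
      rwa [hG] at this
    have h2 : Nat.Coprime (orderOf g) 61 := by
      rw [Nat.coprime_comm, fact61.out.coprime_iff_not_dvd]
      intro h3
      have h4 := Nat.le_of_dvd (orderOf_pos g) h3
      omega
    exact h2.dvd_of_dvd_mul_right h1
  have hcardeq : Fintype.card G = Fintype.card (Aff 61) := by
    rw [← Nat.card_eq_fintype_card, ← Nat.card_eq_fintype_card, hG, card_aff61]
  have hdom : Dominates (os G) (os (Aff 61)) := by
    apply dominates_iff G (Aff 61) hcardeq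
    intro t
    by_cases h61 : 61 ≤ t
    · have : Finset.univ.filter (fun g : Aff 61 => orderOf g ≤ t) = Finset.univ := by
        rw [Finset.filter_eq_self]
        intro x _
        exact le_trans (orderOf_le_aff x) h61
      rw [this, Finset.card_univ, ← hcardeq]
      exact Finset.card_le_univ _
    · by_cases h2 : 2 ≤ t
      · exact le_trans (hle60 t (by omega)) (le_trans (by norm_num) (card_involutions t h2))
      · by_cases h1 : t = 1
        · subst h1
          have e1 : Finset.univ.filter (fun g : G => orderOf g ≤ 1) ⊆ {1} := by
            intro g hg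
            rw [Finset.mem_filter] at hg
            rw [Finset.mem_singleton, ← orderOf_eq_one_iff]
            have := orderOf_pos g
            omega
          have e2 : (1 : Aff 61) ∈ Finset.univ.filter (fun g : Aff 61 => orderOf g ≤ 1) := by
            rw [Finset.mem_filter, orderOf_one]
            exact ⟨Finset.mem_univ _, le_rfl⟩
          calc _ ≤ ({1} : Finset G).card := Finset.card_le_card e1
            _ = 1 := Finset.card_singleton _
            _ ≤ _ := Finset.card_pos.2 ⟨_, e2⟩
        · have h0 : t = 0 := by omega
          subst h0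
          have e1 : Finset.univ.filter (fun g : G => orderOf g ≤ 0) = ∅ := by
            rw [Finset.filter_eq_empty_iff]
            intro g _
            have := orderOf_pos g
            omega
          rw [e1, Finset.card_empty]
          exact Nat.zero_le _
  have heq := hmin (Aff 61) (by rw [card_aff61, hG]) hdom
  have h3 := countP_os (Aff 61) 2
  rw [heq, countP_os G 2] at h3
  have h4 := hle60 2 (by norm_num)
  have h5 := card_involutions 2 le_rfl
  omega

/-- There are non-solvable groups of order 3660, but every group of order 3660 with minimal order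
sequence is solvable. -/
theorem result :
    (∃ (G : Type) (_ : Group G) (_ : Fintype G), Nat.card G = 3660 ∧ ¬ Group.IsSolvable G) ∧
    ∀ (G : Type) [Group G] [Fintype G], Nat.card G = 3660 → MinimalOS G → Group.IsSolvable G := by
  constructor
  · refine ⟨alternatingGroup (Fin 5) × Multiplicative (ZMod 61), inferInstance, inferInstance,
      ?_, ?_⟩
    · rw [Nat.card_prod, nat_card_alternatingGroup, Nat.card_eq_fintype_card (α := Fin 5),
        Fintype.card_fin, Nat.card_eq_fintype_card, Fintype.card_multiplicative, ZMod.card]
      decide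
    · intro h
      exact not_solvable_alt (Group.isSolvable_of_surjective
        (f := MonoidHom.fst (alternatingGroup (Fin 5)) (Multiplicative (ZMod 61)))
        Prod.fst_surjective)
  · intro G _ _ hG hmin
    by_contra hns
    exact no_minimal G hG hns hmin

end Pool.Agent.Results.MP_e15593_al.NoMinimal
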